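import Pool.Agent.HW73.CoreV68

/-!
MP_522b4f_co, `k ≥ 4`: Hajós-k-constructions of polynomial length for digraphs with a bounded core of dichromatic number
`k - 1` at which all vertices are anchored, up to a bounded number of vertices and an independent set.
-/

namespace Pool.Agent.Results.MP_522b4f_co.AnchoredClique

open HJ71 HW71 HW72 HW73

/-- For all `k ≥ 4`, `p` and `b` there is `C` with this property. Let `D` be a finite digraph on `n` vertices, `R` a set of at
most `p` vertices which induces a subdigraph of dichromatic number at least `k - 1`, `E` a set of at most `b` vertices and `I`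
an independent set of vertices outside `R`. If the vertices anchored at `R` and the vertices of `E` and `I` together induce a
subdigraph of dichromatic number at least `k`, then `D` has a subdigraph with a Hajós-k-construction of length at most
`C n ^ C`. -/
theorem result (k : ℕ) (hk : 4 ≤ k) (p b : ℕ) :
    ∃ C : ℕ, ∀ (D : Dig) (R E I : Finset D.V), R.card ≤ p →
      k - 1 ≤ dichromatic (ind D (R : Set D.V)) → E.card ≤ b →
      (∀ z ∈ I, z ∉ R ∧ ∀ y ∈ I, ¬ D.adj z y) →
      k ≤ dichromatic
        (ind D ({v | AnchoredAtC (k - 1) D R p v} ∪ (E : Set D.V) ∪ (I : Set D.V))) →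
      ∃ H : Dig, IsSub H D ∧ ConstructibleIn k (C * Nat.card D.V ^ C) H := by
  obtain ⟨w, rfl⟩ : ∃ w, k = w + 1 := ⟨k - 1, by omega⟩
  refine ⟨CC w b p, fun D R E I hR hcore hE hI hD => ?_⟩
  refine mainV (by omega) D R E I hR (fun h => ?_) hE hI (fun h => ?_)
  · have h1 : dichromatic (ind D (R : Set D.V)) ≤ w - 1 := Nat.sInf_le h
    omega
  · have h1 : dichromatic
        (ind D ({v | AnchoredAtC w D R p v} ∪ (E : Set D.V) ∪ (I : Set D.V))) ≤ w :=
      Nat.sInf_le h
    simp only [Nat.add_sub_cancel] at hD
    omega

end Pool.Agent.Results.MP_522b4f_co.AnchoredClique
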