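import Pool.Agent.HJ71.Fin

/-!
MP_522b4f_co: an explicit upper bound for the length of directed Hajós constructions.
-/

namespace Pool.Agent.Results.MP_522b4f_co.ExplicitLength

open HJ71

/-- Every finite digraph `D` on `n` vertices with dichromatic number at least `k` has a
subdigraph with a Hajós-`k`-construction of length at most `(n + 1) ^ (2 (k - 1) n + 6)`. -/
theorem result (k : ℕ) (hk : 1 ≤ k) (D : Dig) (hD : k ≤ dichromatic D) :
    ∃ H : Dig, IsSub H D ∧
      ConstructibleIn k ((Nat.card D.V + 1) ^ (2 * (k - 1) * Nat.card D.V + 6)) H := by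
  have := D.fin
  have hnd := not_dicolorable hk hD
  obtain ⟨e⟩ : Nonempty (D.V ≃ Fin (Nat.card D.V)) := ⟨Finite.equivFin D.V⟩
  have hn : 0 < Nat.card D.V := by
    rcases Nat.eq_zero_or_pos (Nat.card D.V) with h0 | h0
    · exfalso
      have hemp : IsEmpty D.V := by
        rcases Nat.card_eq_zero.1 h0 with h | h
        · exact h
        · exact absurd D.fin (not_finite_iff_infinite.2 h)
      have h1 : Dicolorable D 0 := ⟨fun v => (hemp.false v).elim, fun i => i.elim0⟩
      have h2 : dichromatic D ≤ 0 := Nat.sInf_le h1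
      omega
    · exact h0
  generalize hN : Nat.card D.V = n at *
  let D' : Cl n := fun a b => D.adj (e.symm a) (e.symm b)
  obtain ⟨l, m, h1, h2, E, hE, hED⟩ := labelled_bound (k := k) (w := k - 1) (by omega) (D := D')
    hn (fun a => D.irr _) (fun R hr ht hR => exists_anti hk D e hnd R hr ht hR)
  obtain ⟨l', m', g1, g2, g3⟩ := realize h1
  obtain ⟨T, hT, φ, hφ, hφE⟩ := g3 E hE
  obtain ⟨l'', m'', f1, f2⟩ := steps_suffix g1 T hT
  refine ⟨T, ⟨fun a => e.symm (φ a), e.symm.injective.comp hφ, ?_⟩, T, l'', m'', f1, ?_,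
    Equiv.refl _, fun _ _ => Iff.rfl⟩
  · intro x y hxy
    exact hED _ _ (hφE x y hxy)
  · calc m'' ≤ m' := f2
      _ ≤ (n + 1) * m := g2
      _ ≤ (n + 1) * ((n * (n * (2 * n)) + 2 * n + 1) * (n * (n + 1) ^ (2 * (k - 1) * n))) :=
          Nat.mul_le_mul_left _ h2
      _ ≤ (n + 1) ^ (2 * (k - 1) * n + 6) := arith n (k - 1)

end Pool.Agent.Results.MP_522b4f_co.ExplicitLength
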