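import Pool.Agent.HM71.Main

/-!
# Polynomial length of Hajós-`k`-constructions, for every `k`, on digraphs built by substitution

MP_522b4f_co, all `k`. `Built p` is the least class of digraphs which contains all digraphs with
dichromatic number at most three and is closed under the formation of digraphs with at most `p`
modules, one-way unions and unions along complete digraphs.
-/

namespace Pool.Agent.Results.MP_522b4f_co.ModularDecomposition

open HJ71 HM71

/-- Every digraph `D` of the class `Built p` on `n` vertices with dichromatic number at least `k` has a
subdigraph with a Hajós-`k`-construction of length at most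
`5 n (p k + 1) ^ (2 (k - 1) p k + 6) + 4 * 10 ^ 7 * n ^ 9`. -/
theorem result (p k : ℕ) (hk : 1 ≤ k) (D : Dig) (hD : Built p D) (hc : k ≤ dichromatic D) :
    ∃ H : Dig, IsSub H D ∧
      ConstructibleIn k (5 * (p * k + 1) ^ (2 * (k - 1) * (p * k) + 6) * Nat.card D.V +
        4 * 10 ^ 7 * Nat.card D.V ^ 9) H :=
  main hk hD hc

end Pool.Agent.Results.MP_522b4f_co.ModularDecomposition
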