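import Pool.Agent.H3P.Fin

/-!
MP_522b4f_co, the case `k = 3`: Hajós-3-constructions of polynomial length.
-/

namespace Pool.Agent.Results.MP_522b4f_co.PolynomialThree

open HJ71

/-- Every finite digraph `D` on `n` vertices with dichromatic number at least 3 has a
subdigraph with a Hajós-3-construction of length at most `14000 (n + 1) ^ 9`. -/
theorem result (D : Dig) (hD : 3 ≤ dichromatic D) :
    ∃ H : Dig, IsSub H D ∧ ConstructibleIn 3 (14000 * (Nat.card D.V + 1) ^ 9) H :=
  H3P.final D hD

end Pool.Agent.Results.MP_522b4f_co.PolynomialThree
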